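import Pool.Agent.MVO.StmtsG

/-!
# Squad MVO, row ONE: restriction of a chain and of a pair to one letter
-/

namespace Pool.Agent.MVO.H5

open Pool.Agent.Helper14_MV Pool.Agent.Helper2_MV

theorem flat_rep (n c : ℕ) : (List.replicate n c).flatMap (fun _ => [0]) = List.replicate n 0 := by
  induction n with
  | zero => rfl
  | succ n ih => rw [List.replicate_succ, List.flatMap_cons, ih, List.replicate_succ]; rfl

theorem filter_block {k c : ℕ} {L : List ℕ} (hL : ∀ d ∈ L, NS k d) :
    L.filter (fun d => decide (d = c) || decide (2 ≤ d ∧ d ≤ k + 1)) =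
      List.replicate (L.count c) c := by
  induction L with
  | nil => rfl
  | cons a L ih =>
    have h1 := ih (fun d hd => hL d (List.mem_cons_of_mem _ hd))
    have h2 : ¬ (2 ≤ a ∧ a ≤ k + 1) := hL a (by simp)
    by_cases hac : a = c
    · subst hac
      rw [List.filter_cons_of_pos (by simp), h1, List.count_cons_self, List.replicate_succ]
    · rw [List.filter_cons_of_neg (by
        simp only [Bool.or_eq_true, decide_eq_true_eq, not_or]
        exact ⟨hac, h2⟩), h1, List.count_cons_of_ne hac]

theorem one_a (θ : FIC) (k : ℕ) (B B' : ℕ → List ℕ) (c : ℕ) (hc : NS k c) (hB : BlkOk k B)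
    (hB' : BlkOk k B') (h : RR θ (asm k B) (asm k B')) :
    L1 θ k (fun j => (B j).count c) (fun j => (B' j).count c) := by
  have hp : ∀ d, 2 ≤ d → d ≤ k + 1 →
      (fun d => decide (d = c) || decide (2 ≤ d ∧ d ≤ k + 1)) d = true := by
    intro d h1 h2
    simp only [Bool.or_eq_true, decide_eq_true_eq]
    exact Or.inr ⟨h1, h2⟩
  have h1 := RR.filter (fun d => decide (d = c) || decide (2 ≤ d ∧ d ≤ k + 1)) h
  rw [asm_filter _ hp, asm_filter _ hp,
    asm_congr (B' := fun j => List.replicate ((B j).count c) c)
      (fun j hj => filter_block (hB j hj)),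
    asm_congr (B := fun j => (B' j).filter _) (B' := fun j => List.replicate ((B' j).count c) c)
      (fun j hj => filter_block (hB' j hj))] at h1
  have h2 := rr_sub θ (fun _ => [0]) (B := fun j => List.replicate ((B j).count c) c)
    (B' := fun j => List.replicate ((B' j).count c) c)
    (fun j _ d hd => by rw [List.eq_of_mem_replicate hd]; exact hc)
    (fun j _ d hd => by rw [List.eq_of_mem_replicate hd]; exact hc) h1
  simp only [flat_rep] at h2
  exact h2

theorem one : OneStmt := by
  refine ⟨one_a, ?_⟩
  intro ρ σ k B B' c hc h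
  refine Relation.ReflTransGen.lift (fun (B : ℕ → List ℕ) => fun j => (B j).count c) ?_ _ _ h
  rintro B B' ⟨h1, h2, h3, h4⟩
  refine ⟨h3 c, ?_⟩
  rcases h4 with h4 | h4
  · exact Or.inl (one_a ρ k B B' c hc h1 h2 h4)
  · exact Or.inr (one_a σ k B B' c hc h1 h2 h4)

end Pool.Agent.MVO.H5
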