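import Pool.Agent.MVO.StmtsA

/-!
# Squad MVO, row TAD: tightness of class a over `O4`
-/

namespace Pool.Agent.MVO.H5

open Pool.Agent.Helper14_MV Pool.Agent.Helper2_MV

/-- a block in its context -/
theorem asm_ctx (B : ℕ → List ℕ) (i : ℕ) : ∀ k, i ≤ k → ∃ p s : List ℕ,
    ∀ u, asm k (Function.update B i u) = p ++ u ++ s := by
  intro k
  induction k with
  | zero =>
    intro hi
    have : i = 0 := by omega
    subst this
    exact ⟨[], [], fun u => by simp [asm]⟩
  | succ k ih =>
    intro hi
    by_cases h : i = k + 1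
    · subst h
      refine ⟨asm k B ++ [k + 2], [], fun u => ?_⟩
      simp only [asm, Function.update_self, List.append_nil, List.append_assoc]
      congr 1
      apply asm_congr
      intro j hj
      rw [Function.update_of_ne (by omega)]
    · obtain ⟨p, s, hps⟩ := ih (by omega)
      refine ⟨p, s ++ (k + 2) :: B (k + 1), fun u => ?_⟩
      simp only [asm]
      rw [hps, Function.update_of_ne (fun h' => h h'.symm)]
      simp [List.append_assoc]

theorem rr_ctx (ρ : FIC) {k i : ℕ} (hi : i ≤ k) (B : ℕ → List ℕ) {u u' : List ℕ}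
    (h : RR ρ u u') :
    RR ρ (asm k (Function.update B i u)) (asm k (Function.update B i u')) := by
  obtain ⟨p, s, hps⟩ := asm_ctx B i k hi
  rw [hps, hps]
  exact ((RR.refl (β := ρ) p).append h).append (RR.refl s)

/-- the map which merges the blocks `i` and `i+1` -/
def mrg (i : ℕ) : ℕ → ℕ := fun j => if j ≤ i then j else j - 1

theorem mrg_bmap (k i : ℕ) (hi : i ≤ k) : BMap (k + 1) k (mrg i) where
  mono := by
    intro a b hab hb
    unfold mrg
    split_ifs <;> omega
  le := by
    intro a ha
    unfold mrg
    split_ifs <;> omega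

theorem pshB_mrg (i : ℕ) (C : ℕ → List ℕ) (K j : ℕ) : pshB K (mrg i) C j =
    if j < i then (if j ≤ K then C j else [])
    else if j = i then (if i ≤ K then C i else []) ++ (if i + 1 ≤ K then C (i + 1) else [])
    else (if j + 1 ≤ K then C (j + 1) else []) := by
  induction K with
  | zero =>
    rw [pshB_zero]
    have h0 : mrg i 0 = 0 := by unfold mrg; simp
    rw [h0]
    by_cases h1 : j < i
    · rw [if_pos h1]
      by_cases h2 : 0 = j
      · subst h2; simp
      · rw [if_neg h2, if_neg (by omega)]
    · rw [if_neg h1]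
      by_cases h3 : j = i
      · subst h3
        rw [if_pos rfl]
        by_cases h2 : 0 = j
        · subst h2; simp
        · rw [if_neg h2, if_neg (by omega), if_neg (by omega)]; rfl
      · rw [if_neg h3, if_neg (by omega), if_neg (by omega)]
  | succ K ih =>
    rw [pshB_succ, ih]
    by_cases hK : K + 1 ≤ i
    · have hf : mrg i (K + 1) = K + 1 := by unfold mrg; rw [if_pos hK]
      rw [hf]
      by_cases h1 : j < i
      · simp only [if_pos h1]
        by_cases h2 : K + 1 = j
        · subst h2
          rw [if_neg (by omega), if_pos rfl, if_pos (le_refl _)]; rfl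
        · rw [if_neg h2, List.append_nil]
          by_cases h4 : j ≤ K
          · rw [if_pos h4, if_pos (by omega)]
          · rw [if_neg h4, if_neg (by omega)]
      · simp only [if_neg h1]
        by_cases h3 : j = i
        · subst h3
          simp only [if_true]
          by_cases h2 : K + 1 = j
          · subst h2
            rw [if_neg (by omega), if_neg (by omega), if_pos rfl, if_pos (le_refl _),
              if_neg (by omega)]
            simp
          · rw [if_neg h2, if_neg (by omega), if_neg (by omega), if_neg (by omega),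
              if_neg (by omega)]
            simp
        · simp only [if_neg h3]
          rw [if_neg (by omega), if_neg (by omega), if_neg (by omega)]
          simp
    · have hf : mrg i (K + 1) = K := by unfold mrg; rw [if_neg hK]; omega
      rw [hf]
      by_cases h1 : j < i
      · simp only [if_pos h1]
        rw [if_neg (show ¬ K = j by omega), List.append_nil, if_pos (show j ≤ K by omega),
          if_pos (show j ≤ K + 1 by omega)]
      · simp only [if_neg h1]
        by_cases h3 : j = i
        · subst h3
          simp only [if_true]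
          by_cases h2 : K = j
          · subst h2
            rw [if_pos (le_refl _), if_neg (by omega), if_pos rfl, if_pos (by omega),
              if_pos (le_refl _)]
            simp
          · rw [if_neg h2, if_pos (by omega), if_pos (by omega), if_pos (by omega),
              if_pos (by omega)]
            simp
        · simp only [if_neg h3]
          by_cases h2 : K = j
          · subst h2
            rw [if_neg (by omega), if_pos rfl, if_pos (le_refl _)]; rfl
          · rw [if_neg h2, List.append_nil]
            by_cases h4 : j + 1 ≤ K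
            · rw [if_pos h4, if_pos (by omega)]
            · rw [if_neg h4, if_neg (by omega)]

theorem blkOk_bl (k : ℕ) (a b : ℕ → ℕ) (e : ℕ → Bool) :
    BlkOk k (fun j => bl (a j) (b j) (e j)) := by
  intro j _ c hc hs
  have : c = 0 ∨ c = 1 := by
    have hc' : c ∈ bl (a j) (b j) (e j) := hc
    unfold bl at hc'
    split_ifs at hc' with h
    · rw [List.mem_append] at hc'
      rcases hc' with hc' | hc'
      · right; exact List.eq_of_mem_replicate hc'
      · left; exact List.eq_of_mem_replicate hc'
    · rw [List.mem_append] at hc'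
      rcases hc' with hc' | hc'
      · left; exact List.eq_of_mem_replicate hc'
      · right; exact List.eq_of_mem_replicate hc'
  omega

theorem flp_flp (e : ℕ → Bool) (i : ℕ) : flp (flp e i) i = e := by
  funext j
  unfold flp
  by_cases h : j = i
  · simp [h]
  · simp [h]

theorem bl_zero_right (p : ℕ) (e : Bool) : bl p 0 e = List.replicate p 0 := by
  unfold bl
  cases e <;> simp

/-- the statement (F0) -/
def F0 (ρ : FIC) : Prop := ∀ (k : ℕ) (a b : ℕ → ℕ) (i : ℕ), 2 ≤ deg k a → 2 ≤ deg k b → i ≤ k →
      ¬ ((sp k a).max = (i : WithBot ℕ) ∧ (sp k b).max = (i : WithBot ℕ)) → Bt ρ k a b i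

theorem mem_sp {k : ℕ} {a : ℕ → ℕ} {j : ℕ} : j ∈ sp k a ↔ j ≤ k ∧ a j ≠ 0 := by
  unfold sp
  rw [Finset.mem_filter, Finset.mem_range]
  constructor
  · rintro ⟨h1, h2⟩; exact ⟨by omega, h2⟩
  · rintro ⟨h1, h2⟩; exact ⟨by omega, h2⟩

theorem le_max_sp {k : ℕ} {a : ℕ → ℕ} {i j : ℕ} (h : (sp k a).max = (i : WithBot ℕ))
    (hj : j ∈ sp k a) : j ≤ i := by
  have h1 := Finset.le_max hj
  rw [h] at h1
  exact WithBot.coe_le_coe.1 h1

theorem single_le_deg {k : ℕ} (a : ℕ → ℕ) {j : ℕ} (hj : j ≤ k) : a j ≤ deg k a := by
  unfold deg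
  exact Finset.single_le_sum (f := a) (fun _ _ => Nat.zero_le _)
    (Finset.mem_range.2 (by omega))

theorem bt3_aux (ρ : FIC) (hF0 : F0 ρ) (h4 : O4 (FC.ofFIC ρ)) {k i : ℕ} {a b : ℕ → ℕ}
    (hi : i ≤ k) (ha : 3 ≤ a i) (hb : 2 ≤ deg k b) (ha0 : ∀ j, i < j → j ≤ k → a j = 0)
    (hb0 : ∀ j, i < j → j ≤ k → b j = 0) (e : ℕ → Bool) (he : e i = false) :
    Ex ρ k a b e i := by
  unfold Ex
  -- step 1
  have hO : RR ρ [0, 2, 0, 0] [0, 0, 0, 2] := by
    have := h4.2
    unfold FC.ofFIC L1 mw at this
    simpa [asm, v2] using this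
  have hO1 := hO.sub (fun c => if c = 2 then List.replicate (b i) 1 else [c])
  have hO2 : RR ρ ([0] ++ List.replicate (b i) 1 ++ [0, 0])
      ([0, 0, 0] ++ List.replicate (b i) 1) := by
    simpa [List.flatMap_cons] using hO1
  have hO3 : RR ρ (List.replicate (a i - 3) 0 ++ ([0] ++ List.replicate (b i) 1 ++ [0, 0]))
      (List.replicate (a i - 3) 0 ++ ([0, 0, 0] ++ List.replicate (b i) 1)) :=
    (RR.refl (β := ρ) _).append hO2
  have hS1 := rr_ctx ρ hi (fun j => bl (a j) (b j) (e j)) hO3
  have e1 : asm k (Function.update (fun j => bl (a j) (b j) (e j)) i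
      (List.replicate (a i - 3) 0 ++ ([0, 0, 0] ++ List.replicate (b i) 1))) = w2 k a b e := by
    unfold w2
    apply asm_congr
    intro j hj
    by_cases hji : j = i
    · subst hji
      rw [Function.update_self, he]
      unfold bl
      have h3 : ([0, 0, 0] : List ℕ) = List.replicate 3 0 := rfl
      rw [← List.append_assoc, h3, ← List.replicate_add]
      have h5 : a j - 3 + 3 = a j := by omega
      rw [h5]
      simp
    · rw [Function.update_of_ne hji]
  rw [e1] at hS1
  -- step 2
  let a' : ℕ → ℕ := fun j => if j < i then a j else if j = i then a i - 2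
    else if j = i + 1 then 2 else 0
  let b' : ℕ → ℕ := fun j => if j ≤ i then b j else 0
  have hda : 2 ≤ deg (k + 1) a' := by
    have h1 : a' (i + 1) = 2 := by simp [a']
    have h2 := single_le_deg (k := k + 1) a' (j := i + 1) (by omega)
    omega
  have hdb : 2 ≤ deg (k + 1) b' := by
    have h1 : deg k b ≤ deg k b' := by
      unfold deg
      apply Finset.sum_le_sum
      intro j hj
      rw [Finset.mem_range] at hj
      by_cases h : j ≤ i
      · simp [b', h]
      · rw [hb0 j (by omega) (by omega)]
        exact Nat.zero_le _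
    have h2 : deg k b' ≤ deg (k + 1) b' := by
      unfold deg
      rw [Finset.sum_range_succ _ (k + 1)]
      omega
    omega
  have hF := hF0 (k + 1) a' b' i hda hdb (by omega) (by
    rintro ⟨h1, -⟩
    have h2 : i + 1 ∈ sp (k + 1) a' := mem_sp.2 ⟨by omega, by simp [a']⟩
    have := le_max_sp h1 h2
    omega) e
  unfold Ex w2 at hF
  have hP := rr_push ρ (mrg_bmap k i hi) (blkOk_bl (k + 1) a' b' e)
    (blkOk_bl (k + 1) a' b' (flp e i)) hF
  have e2 : asm k (pshB (k + 1) (mrg i) (fun j => bl (a' j) (b' j) (e j))) =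
      asm k (Function.update (fun j => bl (a j) (b j) (e j)) i
      (List.replicate (a i - 3) 0 ++ ([0] ++ List.replicate (b i) 1 ++ [0, 0]))) := by
    apply asm_congr
    intro j hj
    rw [pshB_mrg]
    by_cases h1 : j < i
    · rw [if_pos h1, if_pos (by omega), Function.update_of_ne (by omega)]
      simp [a', b', h1, h1.le]
    · rw [if_neg h1]
      by_cases h2 : j = i
      · subst h2
        rw [if_pos rfl, if_pos (by omega), if_pos (by omega), Function.update_self]
        have h3 : a' j = a j - 2 := by simp [a']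
        have h4 : b' j = b j := by simp [b']
        have h5 : a' (j + 1) = 2 := by simp [a']
        have h6 : b' (j + 1) = 0 := by simp [b']
        rw [h3, h4, h5, h6, he, bl_zero_right]
        unfold bl
        have h7 : a j - 2 = (a j - 3) + 1 := by omega
        rw [h7, List.replicate_add]
        simp [List.append_assoc, List.replicate_succ]
      · rw [if_neg h2, if_pos (by omega), Function.update_of_ne h2]
        have h3 : a' (j + 1) = 0 := by
          simp only [a']
          rw [if_neg (by omega), if_neg (by omega), if_neg (by omega)]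
        have h4 : b' (j + 1) = 0 := by
          simp only [b']
          rw [if_neg (by omega)]
        rw [h3, h4, ha0 j (by omega) hj, hb0 j (by omega) hj, bl_zero_right, bl_zero_right]
  have e3 : asm k (pshB (k + 1) (mrg i) (fun j => bl (a' j) (b' j) (flp e i j))) =
      w2 k a b (flp e i) := by
    unfold w2
    apply asm_congr
    intro j hj
    rw [pshB_mrg]
    by_cases h1 : j < i
    · rw [if_pos h1, if_pos (by omega)]
      simp [a', b', h1, h1.le]
    · rw [if_neg h1]
      by_cases h2 : j = i
      · subst h2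
        rw [if_pos rfl, if_pos (by omega), if_pos (by omega)]
        have h3 : a' j = a j - 2 := by simp [a']
        have h4 : b' j = b j := by simp [b']
        have h5 : a' (j + 1) = 2 := by simp [a']
        have h6 : b' (j + 1) = 0 := by simp [b']
        have h8 : flp e j j = true := by simp [flp, he]
        rw [h3, h4, h5, h6, h8, bl_zero_right]
        unfold bl
        rw [if_pos rfl, if_pos rfl, List.append_assoc, ← List.replicate_add]
        congr 2
        omega
      · rw [if_neg h2, if_pos (by omega)]
        have h3 : a' (j + 1) = 0 := by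
          simp only [a']
          rw [if_neg (by omega), if_neg (by omega), if_neg (by omega)]
        have h4 : b' (j + 1) = 0 := by
          simp only [b']
          rw [if_neg (by omega)]
        rw [h3, h4, ha0 j (by omega) hj, hb0 j (by omega) hj, bl_zero_right, bl_zero_right]
  rw [e2, e3] at hP
  exact ρ.trans (RR.symm hS1) hP

theorem bt3 (ρ : FIC) (hF0 : F0 ρ) (h4 : O4 (FC.ofFIC ρ)) {k i : ℕ} {a b : ℕ → ℕ}
    (hi : i ≤ k) (ha : 3 ≤ a i) (hb : 2 ≤ deg k b) (ha0 : ∀ j, i < j → j ≤ k → a j = 0)
    (hb0 : ∀ j, i < j → j ≤ k → b j = 0) : Bt ρ k a b i := by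
  intro e
  by_cases he : e i = false
  · exact bt3_aux ρ hF0 h4 hi ha hb ha0 hb0 e he
  · have h1 : flp e i i = false := by
      simp only [flp, if_true]
      cases h : e i
      · exact absurd h he
      · rfl
    have h2 := bt3_aux ρ hF0 h4 hi ha hb ha0 hb0 (flp e i) h1
    unfold Ex at h2 ⊢
    rw [flp_flp] at h2
    exact RR.symm h2

theorem max_sp_of {k : ℕ} {a : ℕ → ℕ} {i : ℕ} (h : i ∈ sp k a) (h' : ∀ j ∈ sp k a, j ≤ i) :
    (sp k a).max = (i : WithBot ℕ) :=
  le_antisymm (Finset.max_le fun j hj => WithBot.coe_le_coe.2 (h' j hj)) (Finset.le_max h)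

theorem deg_sg {k i : ℕ} (d : ℕ) (hi : i ≤ k) : deg k (sg i d) = d := by
  unfold deg sg
  rw [Finset.sum_ite_eq' (Finset.range (k + 1)) i (fun _ => d),
    if_pos (Finset.mem_range.2 (by omega))]

theorem card_sp_le (k : ℕ) (a : ℕ → ℕ) : (sp k a).card ≤ deg k a := by
  unfold deg
  have h1 : (sp k a).card = ∑ _j ∈ sp k a, 1 := by simp
  rw [h1]
  refine le_trans (Finset.sum_le_sum (g := a) fun j hj => ?_) ?_
  · have := (mem_sp.1 hj).2
    omega
  · apply Finset.sum_le_sum_of_subset
    unfold sp
    exact Finset.filter_subset _ _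

theorem deg_eq_par (k : ℕ) (a : ℕ → ℕ) :
    deg k a = (par k a).card + 2 * ∑ j ∈ Finset.range (k + 1), a j / 2 := by
  unfold deg par
  rw [Finset.card_filter, Finset.mul_sum, ← Finset.sum_add_distrib]
  apply Finset.sum_congr rfl
  intro j _
  split_ifs <;> omega

theorem mem_par {k : ℕ} {a : ℕ → ℕ} {j : ℕ} : j ∈ par k a ↔ j ≤ k ∧ a j % 2 = 1 := by
  unfold par
  rw [Finset.mem_filter, Finset.mem_range]
  constructor
  · rintro ⟨h1, h2⟩; exact ⟨by omega, h2⟩
  · rintro ⟨h1, h2⟩; exact ⟨by omega, h2⟩

/-- all squares in the block `p` -/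
def sqr (k : ℕ) (a : ℕ → ℕ) (p : ℕ) : ℕ → ℕ := fun j =>
  (if j ∈ par k a then 1 else 0) +
    (if j = p then 2 * ∑ j ∈ Finset.range (k + 1), a j / 2 else 0)

theorem deg_sqr {k : ℕ} (a : ℕ → ℕ) {p : ℕ} (hp : p ≤ k) : deg k (sqr k a p) = deg k a := by
  rw [deg_eq_par k a]
  unfold deg sqr
  rw [Finset.sum_add_distrib, Finset.sum_ite_eq' (Finset.range (k + 1)) p,
    if_pos (Finset.mem_range.2 (by omega))]
  congr 1
  rw [Finset.card_eq_sum_ones, Finset.sum_ite_mem]
  congr 1
  rw [Finset.inter_eq_right]
  unfold par
  exact Finset.filter_subset _ _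

theorem par_sqr {k : ℕ} (a : ℕ → ℕ) (p : ℕ) : par k (sqr k a p) = par k a := by
  ext j
  rw [mem_par]
  constructor
  · rintro ⟨h1, h2⟩
    by_contra h3
    unfold sqr at h2
    rw [if_neg h3] at h2
    split_ifs at h2 <;> omega
  · intro h
    refine ⟨(mem_par.1 h).1, ?_⟩
    unfold sqr
    rw [if_pos h]
    split_ifs <;> omega

theorem eq_of_deg_two {k : ℕ} {a b : ℕ → ℕ} (ha : deg k a = 2) (hb : deg k b = 2)
    (h : sp k a = sp k b) : ∀ j ≤ k, ¬ (a j < b j) := by
  intro j hj hlt
  have hbj : b j ≠ 0 := by omega
  have hj' : j ∈ sp k a := by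
    rw [h]
    exact mem_sp.2 ⟨hj, hbj⟩
  have haj := (mem_sp.1 hj').2
  have hb2 := single_le_deg b hj
  have ha1 : a j = 1 := by omega
  have hb2' : b j = 2 := by omega
  have hmem : j ∈ Finset.range (k + 1) := Finset.mem_range.2 (by omega)
  have h1 : ∑ x ∈ (Finset.range (k + 1)).erase j, a x ≠ 0 := by
    have := Finset.add_sum_erase (Finset.range (k + 1)) a hmem
    unfold deg at ha
    omega
  obtain ⟨x, hx, hx0⟩ := Finset.exists_ne_zero_of_sum_ne_zero h1
  have hxk : x ≤ k := by
    have := Finset.mem_range.1 (Finset.mem_of_mem_erase hx)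
    omega
  have hxb : x ∈ sp k b := by
    rw [← h]
    exact mem_sp.2 ⟨hxk, hx0⟩
  have hxb0 := (mem_sp.1 hxb).2
  have h2 := Finset.add_sum_erase (Finset.range (k + 1)) b hmem
  have h3 : b x ≤ ∑ x ∈ (Finset.range (k + 1)).erase j, b x :=
    Finset.single_le_sum (f := b) (fun _ _ => Nat.zero_le _) hx
  unfold deg at hb
  omega

theorem eq_pair {S : Finset ℕ} {m i : ℕ} (hm : S.min = (m : WithTop ℕ))
    (hi : S.max = (i : WithBot ℕ)) (hc : S.card ≤ 2) : S = {m, i} := by
  have h1 : m ∈ S := Finset.mem_of_min hm
  have h2 : i ∈ S := Finset.mem_of_max hi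
  by_cases h : m = i
  · subst h
    ext x
    simp only [Finset.mem_insert, Finset.mem_singleton, or_self]
    constructor
    · intro hx
      have h3 := Finset.le_max hx
      have h4 := Finset.min_le hx
      rw [hi] at h3
      rw [hm] at h4
      exact le_antisymm (WithBot.coe_le_coe.1 h3) (WithTop.coe_le_coe.1 h4)
    · rintro rfl
      exact h1
  · symm
    apply Finset.eq_of_subset_of_card_le
    · intro x hx
      rw [Finset.mem_insert, Finset.mem_singleton] at hx
      rcases hx with rfl | rfl
      · exact h1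
      · exact h2
    · rw [Finset.card_pair h]
      exact hc

theorem tad (hOAR : OarStmt) (hODA : OdaStmt) (hODR : OdrStmt) (hFAA : FaaStmt) : TadStmt := by
  intro β hA hR h4 ρ hβρ _ k a a' hda hdd hL
  by_cases hβ : L1 β k a a'
  · exact Or.inl hβ
  right
  intro b e hdb i hi
  have hle : ∀ l l' : List ℕ, RR β l l' → RR ρ l l' := fun l l' h => hβρ _ _ h
  have hAρ : ClA ρ := ⟨hle _ _ hA.s1, hle _ _ hA.s2⟩
  have hRρ : R0 ρ := hle _ _ hR
  have h4ρ : O4 (FC.ofFIC ρ) := ⟨hle _ _ h4.1, hle _ _ h4.2⟩
  obtain ⟨f0, f2, -, -, f5, f6⟩ := hFAA ρ hAρ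
  suffices hBt : Bt ρ k a b i from hBt e
  by_cases hmax : (sp k a).max = (i : WithBot ℕ) ∧ (sp k b).max = (i : WithBot ℕ)
  swap
  · exact f0 k a b i hda hdb hi hmax
  obtain ⟨hma, hmb⟩ := hmax
  have ha0 : ∀ j, i < j → j ≤ k → a j = 0 := by
    intro j h1 h2
    by_contra h3
    have := le_max_sp hma (mem_sp.2 ⟨h2, h3⟩)
    omega
  have hb0 : ∀ j, i < j → j ≤ k → b j = 0 := by
    intro j h1 h2
    by_contra h3
    have := le_max_sp hmb (mem_sp.2 ⟨h2, h3⟩)
    omega
  have hbi : b i ≠ 0 := (mem_sp.1 (Finset.mem_of_max hmb)).2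
  by_cases hd3 : 3 ≤ deg k a
  · by_cases hpar : (par k a).card = deg k a
    · have hne : par k a ≠ par k a' := fun h => hβ (hODA (FC.ofFIC β) k a a' h4 hd3 hdd h)
      have hEP := hODR (FC.ofFIC ρ) k a a' h4ρ hd3 hdd hL hne
      have hc1 : (par k (sg i (deg k a))).card ≤ 1 := by
        rw [Finset.card_le_one]
        intro x hx y hy
        have h1 := (mem_par.1 hx).2
        have h2 := (mem_par.1 hy).2
        unfold sg at h1 h2
        split_ifs at h1 h2 with h3 h4
        · rw [h3, h4]
        all_goals omega
      have h5 : (FC.ofFIC ρ).R k a (sg i (deg k a)) :=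
        hEP k a (sg i (deg k a)) rfl (deg_sg _ hi) (le_max_left _ _)
          (le_trans hc1 (le_trans (by omega) (le_max_left _ _)))
      refine f2 k a (sg i (deg k a)) b i h5 ?_
      refine bt3 ρ f0 h4ρ hi ?_ hdb ?_ hb0
      · simp only [sg, if_true]
        exact hd3
      · intro j h1 h2
        simp only [sg]
        rw [if_neg (by omega)]
    · have hh : 1 ≤ ∑ j ∈ Finset.range (k + 1), a j / 2 := by
        have := deg_eq_par k a
        omega
      have hT : ∀ p ≤ k, L1 ρ k a (sqr k a p) := fun p hp =>
        hODA (FC.ofFIC ρ) k a (sqr k a p) h4ρ hd3 (deg_sqr a hp).symm (par_sqr a p).symm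
      by_cases hip : i ∈ par k a ∨ par k a = ∅
      · refine f2 k a (sqr k a i) b i (hT i hi) ?_
        refine bt3 ρ f0 h4ρ hi ?_ hdb ?_ hb0
        · unfold sqr
          rcases hip with hip | hip
          · simp only [if_pos hip, if_true]
            omega
          · have h6 := deg_eq_par k a
            rw [hip, Finset.card_empty] at h6
            simp only [if_true]
            omega
        · intro j h1 h2
          have h3 : j ∉ par k a := by
            intro h3
            have h4 := (mem_par.1 h3).2
            rw [ha0 j h1 h2] at h4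
            omega
          unfold sqr
          rw [if_neg h3, if_neg (show ¬ j = i by omega)]
      · rw [not_or] at hip
        obtain ⟨p, hp⟩ := Finset.nonempty_iff_ne_empty.2 hip.2
        have hpk := (mem_par.1 hp).1
        refine f2 k a (sqr k a p) b i (hT p hpk) ?_
        refine f0 k (sqr k a p) b i (by rw [deg_sqr a hpk]; exact hda) hdb hi ?_
        rintro ⟨h1, -⟩
        have h2 : sqr k a p i ≠ 0 := (mem_sp.1 (Finset.mem_of_max h1)).2
        apply h2
        have h3 : ¬ i = p := by
          rintro rfl
          exact hip.1 hp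
        unfold sqr
        rw [if_neg hip.1, if_neg h3]
  · have hd2 : deg k a = 2 := by omega
    have hd2' : deg k a' = 2 := by omega
    by_cases hmax' : (sp k a').max = (i : WithBot ℕ)
    swap
    · exact f2 k a a' b i hL (f0 k a' b i (by omega) hdb hi (fun h => hmax' h.1))
    have hne : sp k a ≠ sp k a' := by
      intro h
      apply hβ
      have h1 := eq_of_deg_two hd2 hd2' h
      have h2 := eq_of_deg_two hd2' hd2 h.symm
      exact (FC.ofFIC β).ext (a := a) (b := a) (fun _ _ => rfl)
        (fun j hj => by have := h1 j hj; have := h2 j hj; omega) ((FC.ofFIC β).refl k a)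
    have hca : (sp k a).card ≤ 2 := by rw [← hd2]; exact card_sp_le k a
    have hca' : (sp k a').card ≤ 2 := by rw [← hd2']; exact card_sp_le k a'
    have hBP : BP (FC.ofFIC ρ) 2 := by
      have h1 := (hOAR (FC.ofFIC ρ) k a a' (Or.inr hd2) (by omega) (by omega) hL hne).2.1
      rw [hd2] at h1
      apply h1
      · intro hmin
        obtain ⟨m, hm⟩ := Finset.min_of_mem (Finset.mem_of_max hma)
        apply hne
        rw [eq_pair hm hma hca, eq_pair (hmin ▸ hm) hmax' hca']
      · rintro ⟨h2, h3⟩
        obtain ⟨x, hx⟩ := Finset.card_eq_one.1 h2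
        obtain ⟨y, hy⟩ := Finset.card_eq_one.1 h3
        apply hne
        have h4 := Finset.mem_of_max hma
        have h5 := Finset.mem_of_max hmax'
        rw [hx, Finset.mem_singleton] at h4
        rw [hy, Finset.mem_singleton] at h5
        rw [hx, hy, ← h4, ← h5]
    have hsg : (sp k (sg i 2)).max = (i : WithBot ℕ) := by
      apply max_sp_of
      · exact mem_sp.2 ⟨hi, by simp [sg]⟩
      · intro j hj
        have h1 := (mem_sp.1 hj).2
        unfold sg at h1
        split_ifs at h1 with h2
        · omega
        · omega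
    have hcsg : (sp k (sg i 2)).card ≤ 2 := by
      have := card_sp_le k (sg i 2)
      rw [deg_sg 2 hi] at this
      exact this
    have hag : L1 ρ k a (sg i 2) :=
      hBP k a (sg i 2) hd2 (deg_sg 2 hi) hca hcsg (hma.trans hsg.symm)
    refine f2 k a (sg i 2) b i hag ?_
    have hsi : sg i 2 i = 2 := by simp [sg]
    by_cases hb2 : 2 ≤ b i
    · exact f6 hRρ k (sg i 2) b i hi (by omega) hb2
    have hb1 : b i = 1 := by omega
    have hmem : i ∈ Finset.range (k + 1) := Finset.mem_range.2 (by omega)
    obtain ⟨j, hj, hj0⟩ : ∃ j ∈ (Finset.range (k + 1)).erase i, b j ≠ 0 := by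
      apply Finset.exists_ne_zero_of_sum_ne_zero
      have := Finset.add_sum_erase (Finset.range (k + 1)) b hmem
      unfold deg at hdb
      omega
    have hji : j ≠ i := Finset.ne_of_mem_erase hj
    have hjk : j ≤ k := by
      have := Finset.mem_range.1 (Finset.mem_of_mem_erase hj)
      omega
    have hjlt : j < i := by
      by_contra h
      exact hj0 (hb0 j (by omega) hjk)
    let u : ℕ → ℕ := fun x => (if x = j then 1 else 0) + (if x = i then 1 else 0)
    let c : ℕ → ℕ := fun x => b x - u x
    have hdu : deg k u = 2 := by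
      have e1 : deg k u = (∑ x ∈ Finset.range (k + 1), if x = j then 1 else 0) +
          ∑ x ∈ Finset.range (k + 1), if x = i then 1 else 0 := by
        unfold deg
        rw [← Finset.sum_add_distrib]
      rw [e1, Finset.sum_ite_eq' (Finset.range (k + 1)) j (fun _ => 1),
        Finset.sum_ite_eq' (Finset.range (k + 1)) i (fun _ => 1), if_pos hmem,
        if_pos (Finset.mem_range.2 (by omega))]
    have hcu : (sp k u).card ≤ 2 := by
      have := card_sp_le k u
      omega
    have hmu : (sp k u).max = (i : WithBot ℕ) := by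
      apply max_sp_of
      · refine mem_sp.2 ⟨hi, ?_⟩
        simp only [u, if_true]
        omega
      · intro x hx
        have h1 := (mem_sp.1 hx).2
        simp only [u] at h1
        split_ifs at h1 <;> omega
    have hug : (FC.ofFIC ρ).R k u (sg i 2) :=
      hBP k u (sg i 2) hdu (deg_sg 2 hi) hcu hcsg (hmu.trans hsg.symm)
    have hadd := (FC.ofFIC ρ).add c hug
    have hbb : L1 ρ k b (fun x => sg i 2 x + c x) := by
      refine (FC.ofFIC ρ).ext (fun x _ => ?_) (fun _ _ => rfl) hadd
      simp only [c, u]
      split_ifs with h1 h2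
      · omega
      · subst h1; omega
      · subst_vars; omega
      · omega
    have h7 := f6 hRρ k (sg i 2) (fun x => sg i 2 x + c x) i hi (by omega)
      (by simp only [hsi]; omega)
    exact f5 k b (sg i 2) i (f2 k b (fun x => sg i 2 x + c x) (sg i 2) i hbb
      (f5 k (sg i 2) (fun x => sg i 2 x + c x) i h7))

end Pool.Agent.MVO.H5
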