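import Pool.Agent.MVO.StmtsD
import Pool.Agent.Helper34_MVO.RVO

/-!
# Squad MVO, row RVG
-/

set_option autoImplicit false

namespace Pool.Agent.MVO.H5

open Pool.Agent.Helper14_MV Pool.Agent.Helper2_MV Pool.Agent.MVO
open Pool.Agent.MVO.H34 (rv rv_rv pre asm_pre)

theorem rv_ns {K c : ℕ} (h : NS K c) : rv K c = [c] := by
  unfold rv
  unfold NS at h
  rw [if_neg h]

theorem rv_blk {K : ℕ} {l : List ℕ} (h : ∀ c ∈ l, NS K c) : l.flatMap (rv K) = l := by
  induction l with
  | nil => rfl
  | cons t l ih =>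
    rw [List.flatMap_cons, ih fun c hc => h c (List.mem_cons_of_mem _ hc),
      rv_ns (h t List.mem_cons_self)]
    rfl

theorem asm_rev_aux (K : ℕ) (B : ℕ → List ℕ) (hB : BlkOk K B) : ∀ k ≤ K,
    asm K (fun j => (B (K - j)).reverse) =
      asm (K - k) (fun j => (B (K - j)).reverse) ++
        (pre B k).reverse.flatMap (rv K) := by
  intro k
  induction k with
  | zero =>
    intro _
    simp [pre]
  | succ k ih =>
    intro hk
    rw [ih (by omega)]
    obtain ⟨m, hm⟩ : ∃ m, K - k = m + 1 := ⟨K - k - 1, by omega⟩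
    have hm' : K - (k + 1) = m := by omega
    rw [hm, hm']
    have e1 : pre B (k + 1) = pre B k ++ B k ++ [k + 2] := by
      show asm k B ++ [k + 2] = _
      rw [asm_pre]
    rw [e1]
    have e2 : (B k).reverse.flatMap (rv K) = (B k).reverse :=
      rv_blk fun c hc => hB k (by omega) c (List.mem_reverse.1 hc)
    have e3 : rv K (k + 2) = [m + 2] := by
      unfold rv
      rw [if_pos (by omega)]
      congr 1
      omega
    have e4 : K - (m + 1) = k := by omega
    rw [List.reverse_append, List.reverse_append, List.reverse_singleton,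
      List.flatMap_append, List.flatMap_append, List.flatMap_singleton, e3, e2]
    show (asm m _ ++ (m + 2) :: (B (K - (m + 1))).reverse) ++ _ = _
    rw [e4]
    simp

theorem asm_rev {k : ℕ} {B : ℕ → List ℕ} (hB : BlkOk k B) :
    (asm k B).reverse.flatMap (rv k) = asm k (fun j => (B (k - j)).reverse) := by
  rw [asm_rev_aux k B hB k le_rfl, asm_pre _ k, List.reverse_append, List.flatMap_append,
    Nat.sub_self]
  congr 1
  show _ = (B (k - 0)).reverse
  rw [Nat.sub_zero]
  exact rv_blk fun c hc => hB k le_rfl c (List.mem_reverse.1 hc)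

theorem asm_rev' {k : ℕ} {B : ℕ → List ℕ} (hB : BlkOk k B) :
    (asm k (fun j => (B (k - j)).reverse)).flatMap (rv k) = (asm k B).reverse := by
  rw [← asm_rev hB, rv_rv]

theorem asm_cg {k : ℕ} {B B' : ℕ → List ℕ} (h : ∀ j ≤ k, B j = B' j) : asm k B = asm k B' := by
  induction k with
  | zero => exact h 0 le_rfl
  | succ k ih =>
    show asm k B ++ (k + 2) :: B (k + 1) = asm k B' ++ (k + 2) :: B' (k + 1)
    rw [ih fun j hj => h j (by omega), h (k + 1) le_rfl]

theorem deg_rev (k : ℕ) (a : ℕ → ℕ) : deg k (fun j => a (k - j)) = deg k a := by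
  unfold deg
  have := Finset.sum_range_reflect a (k + 1)
  rw [← this]
  refine Finset.sum_congr rfl fun j _ => ?_
  congr 1

theorem gb_reverse (n : ℕ → ℕ) (L : List ℕ) : (gb n L).reverse = gb n L.reverse := by
  unfold gb
  induction L with
  | nil => rfl
  | cons c L ih =>
    rw [List.flatMap_cons, List.reverse_append, ih, List.reverse_cons, List.flatMap_append,
      List.flatMap_singleton, List.reverse_replicate]

theorem mem_gb {n : ℕ → ℕ} {L : List ℕ} {c : ℕ} (h : c ∈ gb n L) : c ∈ L := by
  unfold gb at h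
  obtain ⟨d, hd, hc⟩ := List.mem_flatMap.1 h
  rw [List.eq_of_mem_replicate hc]
  exact hd

theorem bl_reverse (p q : ℕ) (e : Bool) : (bl p q e).reverse = bl p q (!e) := by
  unfold bl
  cases e <;> simp

theorem bl_ns {k p q : ℕ} {e : Bool} {c : ℕ} (h : c ∈ bl p q e) : NS k c := by
  have : c = 0 ∨ c = 1 := by
    unfold bl at h
    cases e
    · rcases List.mem_append.1 h with h | h
      · exact Or.inl (List.eq_of_mem_replicate h)
      · exact Or.inr (List.eq_of_mem_replicate h)
    · rcases List.mem_append.1 h with h | h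
      · exact Or.inr (List.eq_of_mem_replicate h)
      · exact Or.inl (List.eq_of_mem_replicate h)
  unfold NS
  omega

theorem w2_rev (k : ℕ) (a b : ℕ → ℕ) (e : ℕ → Bool) :
    (w2 k (fun j => a (k - j)) (fun j => b (k - j)) (fun j => !(e (k - j)))).flatMap (rv k) =
      (w2 k a b e).reverse := by
  have h : BlkOk k (fun j => bl (a j) (b j) (e j)) := fun j _ c hc => bl_ns hc
  unfold w2
  rw [← asm_rev' h]
  congr 1
  refine asm_cg fun j _ => ?_
  simp only [bl_reverse]

theorem rig_op {β : FIC} (h : Rig β) : Rig (FIC.op β) := by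
  intro k a b ha hb
  obtain ⟨i, hi⟩ := h k (fun j => a (k - j)) (fun j => b (k - j)) (by rw [deg_rev]; exact ha)
    (by rw [deg_rev]; exact hb)
  refine ⟨k - i, fun e e' hee => ?_⟩
  have h1 := hi (fun j => !(e (k - j))) (fun j => !(e' (k - j)))
    (by show (!(e (k - i))) = !(e' (k - i)); rw [hee])
  have h2 := h1.sub (rv k)
  rw [w2_rev, w2_rev] at h2
  exact h2

theorem gath_core {β : FIC} {k : ℕ} {B : ℕ → List ℕ} {X : List ℕ} (hB : BlkOk k B)
    (hX : ∀ c ∈ X, NS k c) (hBX : ∀ j ≤ k, ∀ c ∈ B j, c ∈ X)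
    (hd : ∀ c ∈ X, 2 ≤ deg k (fun j => (B j).count c))
    (h : ∀ B' : ℕ → List ℕ, BlkOk k B' → (∀ j ≤ k, ∀ c ∈ B' j, c ∈ X) →
      (∀ c ∈ X, 2 ≤ deg k (fun j => (B' j).count c)) →
        ∃ D : ℕ → List ℕ, (∀ j, (D j).Perm X) ∧
          RR β (asm k B') (gw k (fun j c => (B' j).count c) D)) :
    ∃ D : ℕ → List ℕ, (∀ j, (D j).Perm X) ∧
      RR (FIC.op β) (asm k B) (gw k (fun j c => (B j).count c) D) := by
  obtain ⟨D', hD', hR⟩ := h (fun j => (B (k - j)).reverse)
    (fun j _ c hc => hB (k - j) (by omega) c (List.mem_reverse.1 hc))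
    (fun j _ c hc => hBX (k - j) (by omega) c (List.mem_reverse.1 hc))
    (fun c hc => by
      have e : (fun j => ((B (k - j)).reverse).count c) =
          fun j => (fun j => (B j).count c) (k - j) := by
        funext j
        rw [List.count_reverse]
      rw [e]
      exact (deg_rev k (fun j => (B j).count c)).symm ▸ hd c hc)
  refine ⟨fun j => (D' (k - j)).reverse, fun j => (List.reverse_perm _).trans (hD' _), ?_⟩
  have h2 := hR.sub (rv k)
  rw [asm_rev' hB] at h2
  have h3 : (gw k (fun j c => ((B (k - j)).reverse).count c) D').flatMap (rv k) =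
      (gw k (fun j c => (B j).count c) (fun j => (D' (k - j)).reverse)).reverse := by
    unfold gw
    have hok : BlkOk k (fun j => gb (fun c => (B j).count c) (D' (k - j)).reverse) := by
      intro j _ c hc
      have h4 := List.mem_reverse.1 (mem_gb hc)
      exact hX c ((hD' _).mem_iff.1 h4)
    rw [← asm_rev' hok]
    congr 1
    refine asm_cg fun j hj => ?_
    have e5 : k - (k - j) = j := by omega
    simp only [gb_reverse, List.reverse_reverse, e5, List.count_reverse]
  rw [h3] at h2
  exact h2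

theorem rvg : RvgStmt := by
  intro β
  refine ⟨fun h => ?_, fun h => ?_, rig_op⟩
  · intro k B X hl hB hnd hX hBX hd
    exact gath_core hB hX hBX hd fun B' h1 h2 h3 => h k B' X hl h1 hnd hX h2 h3
  · intro k B X hB hnd hX hBX hd
    exact gath_core hB hX hBX hd fun B' h1 h2 h3 => h k B' X h1 hnd hX h2 h3

end Pool.Agent.MVO.H5
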